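import Pool.Agent.Work.MP_88b7aa_gt.Kc.Cel
import Pool.Agent.Work.MP_88b7aa_gt.PQ.Col4

/-!
# The templates of the triangles (3, q, r)
-/

set_option autoImplicit false

namespace Pool.Agent.Work.MP_88b7aa_gt.D3

open Pool.Agent.Work.MP_88b7aa_gt.CH
open Pool.Agent.Work.MP_88b7aa_gt.PQ
open Pool.Agent.Work.MP_88b7aa_gt.Kc
open ComplexConjugate Complex Matrix

/-- System A, p = 3. -/
def A3 : Tm where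
  fes d := [FEQ 0,
    d.c.getD 0 .gram,
    d.c.getD 1 .gram,
    d.c.getD 2 .gram,
    d.c.getD 3 .gram,
    d.c.getD 4 .gram,
    d.c.getD 5 .gram,
    d.c.getD 6 .gram,
    FEV 0 1 (d.f.getD 0 (.cst 0 0)) (ngS (DpS (.par (cpar 0 1)) 0)) (ngS (DpS (.par (cpar 0 1)) 1)),
    FEV 0 1 (d.f.getD 0 (.cst 0 0)) (ngS (DpS (.par (cpar 0 1)) 1)) (ngS (DpS (.par (cpar 0 1)) 0)),
    FEV 0 1 (d.f.getD 0 (.cst 0 0)) (DpS (.par (cpar 0 1)) 2) (DpS (.par (cpar 0 1)) 1),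
    FEV 0 1 (d.f.getD 0 (.cst 0 0)) (DpS (.par (cpar 0 1)) 1) (DpS (.par (cpar 0 1)) 2),
    FEV 2 0 (d.f.getD 1 (.cst 0 0)) (ngS (DpS (.par (cpar 2 0)) 0)) (ngS (DpS (.par (cpar 2 0)) 1)),
    FEV 2 0 (d.f.getD 1 (.cst 0 0)) (ngS (DpS (.par (cpar 2 0)) 1)) (ngS (DpS (.par (cpar 2 0)) 0)),
    FEV 2 0 (d.f.getD 1 (.cst 0 0)) (DpS (.par (cpar 2 0)) 2) (DpS (.par (cpar 2 0)) 1),
    FEV 2 0 (d.f.getD 1 (.cst 0 0)) (DpS (.par (cpar 2 0)) 1) (DpS (.par (cpar 2 0)) 2),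
    FUT 0 1 2 2,
    FUT 0 2 1 2]
  is := [.form 0, .comp 0 0, .comp 1 0, .comp 2 1, .comp 1 3, .comp 2 0, .comp 1 0, .comp 2 6, .comp 1 0, .comp 2 0, .form 1, .comp 1 0, .comp 2 0, .comp 1 0, .comp 2 3, .comp 1 0, .comp 2 0, .form 2, .comp 0 0, .comp 1 1, .comp 0 0, .comp 2 3, .form 3, .form 4, .comp 0 0, .comp 1 1, .comp 2 0, .comp 1 0, .comp 2 4, .comp 1 0, .comp 2 0, .form 5, .comp 0 0, .comp 1 1, .comp 2 2, .comp 0 0, .form 6, .form 7, .comp 0 0, .comp 1 1, .comp 2 2, .comp 1 0, .form 8, .form 9, .comp 0 0, .comp 2 1, .form 10, .form 11, .form 12, .comp 0 0, .comp 1 1, .form 13, .form 14, .form 15, .form 16, .form 17]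
  pks := [54, 45, 44, 41, 38, 37, 36, 35, 34, 33, 32, 31, 30, 27, 24, 23, 22, 21, 20, 19, 18, 17, 16, 15, 13, 12, 11, 10, 9, 8, 7, 6, 5, 4, 3, 2, 1, 0]
  cn := [⟨0, 0, 0, 0, 6, 10, 19, 28⟩, ⟨0, 0, 0, 0, 6, 11, 19, 29⟩, ⟨0, 0, 0, 0, 8, 1, 24, 1⟩, ⟨0, 0, 0, 0, 3, 14, 9, 34⟩, ⟨0, 0, 0, 0, 3, 15, 9, 35⟩, ⟨0, 0, 0, 0, 13, 1, 33, 1⟩, ⟨1, 2, 2, 1, 1, 4, 3, 12⟩, ⟨0, 0, 0, 0, 16, 3, 36, 9⟩, ⟨2, 0, 2, 2, 16, 5, 36, 18⟩, ⟨0, 0, 0, 0, 2, 3, 4, 9⟩, ⟨0, 2, 2, 1, 2, 0, 8, 0⟩, ⟨2, 0, 2, 1, 2, 5, 5, 17⟩, ⟨0, 0, 0, 0, 4, 3, 10, 9⟩, ⟨0, 2, 2, 1, 4, 0, 13, 0⟩, ⟨2, 0, 2, 1, 4, 5, 11, 17⟩, ⟨0, 0, 0, 0, 9, 3, 25, 9⟩, ⟨0, 2, 2, 1, 9, 0, 27, 0⟩, ⟨2, 0, 2, 1, 9, 5, 26, 17⟩, ⟨2, 1, 2, 1, 1, 7, 2, 23⟩, ⟨0, 0, 0, 0, 17, 6, 37, 19⟩, ⟨1, 0, 2, 2, 17, 2, 37, 7⟩, ⟨0, 0, 0, 0, 5, 6, 14, 19⟩, ⟨0, 1, 2, 1, 5, 0,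 16, 0⟩, ⟨1, 0, 2, 1, 5, 2, 15, 6⟩, ⟨0, 0, 0, 0, 7, 6, 20, 19⟩, ⟨0, 1, 2, 1, 7, 0, 22, 0⟩, ⟨1, 0, 2, 1, 7, 2, 21, 6⟩, ⟨0, 0, 0, 0, 12, 6, 30, 19⟩, ⟨0, 1, 2, 1, 12, 0, 32, 0⟩, ⟨1, 0, 2, 1, 12, 2, 31, 6⟩]
  pp := [⟨0, 1, 1, 0, 54⟩, ⟨1, 2, 1, 2, 36⟩, ⟨2, 0, 1, 5, 21⟩, ⟨0, 1, 2, 0, 53⟩, ⟨1, 0, 2, 2, 35⟩, ⟨0, 1, 0, 10, 9⟩, ⟨0, 1, 0, 11, 8⟩, ⟨0, 2, 2, 0, 52⟩, ⟨2, 0, 2, 5, 20⟩, ⟨0, 2, 0, 14, 3⟩, ⟨0, 2, 0, 15, 2⟩, ⟨1, 2, 2, 4, 29⟩, ⟨2, 1, 2, 7, 14⟩, ⟨1, 2, 3, 4, 28⟩, ⟨2, 1, 3, 4, 25⟩]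
  pn := [⟨0, 1, 0, 0, 55⟩, ⟨0, 1, 0, 1, 45⟩, ⟨0, 1, 0, 16, 1⟩, ⟨0, 1, 0, 2, 38⟩, ⟨0, 1, 0, 4, 32⟩, ⟨0, 1, 0, 9, 12⟩, ⟨0, 1, 0, 17, 0⟩, ⟨0, 1, 0, 5, 24⟩, ⟨0, 1, 0, 7, 18⟩, ⟨0, 1, 0, 12, 7⟩, ⟨1, 2, 3, 0, 49⟩, ⟨2, 1, 3, 0, 46⟩, ⟨1, 2, 3, 1, 42⟩, ⟨2, 1, 3, 1, 39⟩]
  st := [(0, 0), (1, 0), (16, 1), (2, 1), (4, 1), (9, 1), (17, 2), (5, 2), (7, 2), (12, 2)]
  sk _ := [.imgT 0 1 2 2 0 16, .imgT 0 2 1 2 0 17, .star 0 1 2 2 17 0, .star 0 2 1 2 16 0]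
  sf := [⟨1, 2, 2, some 0, 16⟩, ⟨2, 1, 2, some 0, 17⟩, ⟨0, 1, 2, some 17, 0⟩, ⟨0, 2, 2, some 16, 0⟩]
  vd d := fun i j => match i, j with
    | 0, 1 => .sym false (d.f.getD 0 (.cst 0 0)) 0 8 10 11
    | 1, 0 => .sym true (d.f.getD 0 (.cst 0 0)) 0 9 10 11
    | 1, 2 => .small 3 4
    | 2, 1 => .small 3 4
    | 2, 0 => .sym false (d.f.getD 1 (.cst 0 0)) 0 12 14 15
    | 0, 2 => .sym true (d.f.getD 1 (.cst 0 0)) 0 13 14 15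
    | _, _ => .small 0 0
  vx := fun i j => match i, j with
    | 0, 1 => .big 3 8 10 11
    | 1, 0 => .big 3 9 11 10
    | 1, 2 => .small 3 4
    | 2, 1 => .small 3 4
    | 2, 0 => .big 3 12 14 15
    | 0, 2 => .big 3 13 15 14
    | _, _ => .small 0 0
  lb := fun i j => match i, j with
    | 1, 2 => 3
    | 2, 1 => 3
    | _, _ => 0

/-- System A, p = 3, q = 3. -/
def A33 : Tm where
  fes d := [FEQ 0,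
    d.c.getD 0 .gram,
    FEQ 1,
    d.c.getD 1 .gram,
    d.c.getD 2 .gram,
    FEQ 2,
    d.c.getD 3 .gram,
    FEV 2 0 (d.f.getD 0 (.cst 0 0)) (ngS (DpS (.par (cpar 2 0)) 0)) (ngS (DpS (.par (cpar 2 0)) 1)),
    FEV 2 0 (d.f.getD 0 (.cst 0 0)) (ngS (DpS (.par (cpar 2 0)) 1)) (ngS (DpS (.par (cpar 2 0)) 0)),
    FEV 2 0 (d.f.getD 0 (.cst 0 0)) (DpS (.par (cpar 2 0)) 2) (DpS (.par (cpar 2 0)) 1),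
    FEV 2 0 (d.f.getD 0 (.cst 0 0)) (DpS (.par (cpar 2 0)) 1) (DpS (.par (cpar 2 0)) 2),
    FUT 0 1 2 2,
    FUT 0 2 1 2]
  is := [.form 0, .comp 0 0, .comp 1 0, .comp 2 1, .comp 1 3, .comp 2 0, .comp 1 0, .comp 2 6, .comp 1 0, .comp 2 0, .form 1, .comp 1 0, .comp 2 0, .comp 1 0, .comp 2 3, .comp 1 0, .comp 2 0, .form 2, .comp 0 0, .comp 1 0, .comp 0 0, .comp 1 3, .comp 0 0, .comp 1 0, .comp 2 2, .comp 1 0, .comp 2 8, .comp 1 0, .comp 2 0, .form 3, .form 4, .comp 0 0, .comp 1 1, .comp 2 0, .comp 2 3, .form 5, .comp 0 0, .comp 1 0, .comp 0 0, .comp 1 3, .comp 0 0, .comp 1 0, .comp 2 6, .comp 0 0, .form 6, .comp 0 0, .comp 1 0, .comp 0 0, .comp 1 3, .comp 0 0, .comp 1 0, .comp 2 6, .comp 1 0, .form 7, .comp 0 0, .comp 1 0, .comp 0 0, .comp 1 3, .comp 0 0, .comp 1 0, .form 8, .form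 9, .form 10, .form 11, .form 12, .comp 0 0, .comp 1 0, .comp 0 0, .comp 1 3, .comp 0 0, .comp 1 0]
  pks := [69, 60, 59, 56, 53, 49, 41, 40, 39, 38, 36, 28, 27, 25, 22, 19, 16, 13, 10, 9, 8, 7]
  cn := [⟨0, 0, 0, 0, 3, 9, 6, 19⟩, ⟨0, 0, 0, 0, 3, 10, 6, 20⟩, ⟨0, 0, 0, 0, 8, 1, 18, 1⟩, ⟨1, 2, 2, 1, 1, 4, 3, 9⟩, ⟨0, 0, 0, 0, 11, 3, 21, 6⟩, ⟨2, 0, 2, 2, 11, 5, 21, 12⟩, ⟨0, 0, 0, 0, 2, 3, 4, 6⟩, ⟨0, 0, 0, 0, 4, 3, 7, 6⟩, ⟨0, 2, 2, 1, 4, 0, 10, 0⟩, ⟨2, 0, 2, 1, 4, 5, 8, 11⟩, ⟨2, 1, 2, 1, 1, 6, 2, 15⟩, ⟨0, 1, 2, 1, 6, 0, 14, 0⟩, ⟨1, 0, 2, 1, 6, 2, 13, 5⟩, ⟨0, 1, 2, 1, 7, 0, 17, 0⟩, ⟨1, 0, 2, 1, 7, 2, 16, 5⟩]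
  pp := [⟨0, 1, 1, 0, 69⟩, ⟨1, 2, 1, 2, 49⟩, ⟨2, 0, 1, 5, 28⟩, ⟨0, 1, 2, 0, 68⟩, ⟨1, 0, 2, 2, 48⟩, ⟨0, 2, 2, 0, 67⟩, ⟨2, 0, 2, 5, 27⟩, ⟨0, 2, 0, 9, 9⟩, ⟨0, 2, 0, 10, 8⟩, ⟨1, 2, 2, 4, 37⟩, ⟨2, 1, 2, 6, 18⟩, ⟨1, 2, 3, 2, 45⟩, ⟨2, 1, 3, 2, 42⟩, ⟨0, 1, 3, 2, 50⟩, ⟨1, 0, 3, 2, 47⟩]
  pn := [⟨0, 1, 0, 0, 70⟩, ⟨0, 1, 0, 1, 60⟩, ⟨0, 1, 0, 11, 7⟩, ⟨0, 1, 0, 2, 53⟩, ⟨0, 1, 0, 4, 40⟩, ⟨0, 1, 0, 12, 6⟩, ⟨0, 1, 0, 5, 35⟩, ⟨0, 1, 0, 6, 26⟩, ⟨0, 1, 0, 7, 17⟩, ⟨1, 2, 3, 0, 64⟩, ⟨2, 1, 3, 0, 61⟩, ⟨1, 2, 3, 1, 57⟩, ⟨2, 1, 3, 1, 54⟩, ⟨0, 1, 3, 12, 3⟩, ⟨1, 0, 3, 12, 0⟩, ⟨0, 1, 3, 5, 32⟩, ⟨1, 0, 3, 5, 29⟩, ⟨0, 1, 3, 6, 23⟩, ⟨1, 0, 3, 6, 20⟩, ⟨0, 1, 3, 7, 14⟩, ⟨1, 0, 3, 7, 11⟩]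
  st := [(0, 0), (1, 0), (11, 1), (2, 1), (4, 1), (12, 2), (5, 2), (6, 2), (7, 2)]
  sk _ := [.imgT 0 1 2 2 0 11, .imgT 0 2 1 2 0 12, .star 0 1 2 2 12 0, .star 0 2 1 2 11 0, .cc 0 1 2 5 0, .cc 0 2 1 2 0, .cc 1 0 2 5 2, .cc 2 0 1 2 5, .c3 1 0 2 12 2]
  sf := [⟨1, 2, 2, some 0, 11⟩, ⟨2, 1, 2, some 0, 12⟩, ⟨0, 1, 2, some 12, 0⟩, ⟨0, 2, 2, some 11, 0⟩, ⟨0, 1, 2, some 5, 0⟩, ⟨0, 2, 2, some 2, 0⟩, ⟨1, 0, 2, some 5, 2⟩, ⟨2, 0, 2, some 2, 5⟩, ⟨1, 0, 2, some 12, 2⟩]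
  vd d := fun i j => match i, j with
    | 0, 1 => .small 3 2
    | 1, 0 => .small 3 2
    | 1, 2 => .small 3 2
    | 2, 1 => .small 3 2
    | 2, 0 => .sym false (d.f.getD 0 (.cst 0 0)) 0 7 9 10
    | 0, 2 => .sym true (d.f.getD 0 (.cst 0 0)) 0 8 9 10
    | _, _ => .small 0 0
  vx := fun i j => match i, j with
    | 0, 1 => .small 3 2
    | 1, 0 => .small 3 2
    | 1, 2 => .small 3 2
    | 2, 1 => .small 3 2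
    | 2, 0 => .big 3 7 9 10
    | 0, 2 => .big 3 8 10 9
    | _, _ => .small 0 0
  lb := fun i j => match i, j with
    | 1, 2 => 3
    | 2, 1 => 3
    | _, _ => 0

theorem A3_ok (SQ SR : Side) : A3.OK (KS (.ex 3) SQ SR) where
  ok := by decide +kernel
  stt := by decide +kernel
  vx d i j := by fin_cases i <;> fin_cases j <;> rfl
  vd d i j hij := by
    fin_cases i <;> fin_cases j <;> first | exact absurd rfl hij | exact ⟨rfl, rfl, rfl⟩ | exact trivial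
  sf d := rfl
  sk d s hs := by
    simp only [A3, List.mem_cons, List.not_mem_nil, or_false] at hs
    rcases hs with rfl | rfl | rfl | rfl
    · exact ⟨by decide, by decide, by decide, rfl, rfl⟩
    · exact ⟨by decide, by decide, by decide, rfl, rfl⟩
    · exact ⟨by decide, by decide, by decide, rfl, le_refl _, le_refl _, rfl, rfl⟩
    · exact ⟨by decide, by decide, by decide, rfl, le_refl _, le_refl _, rfl, rfl⟩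
  cl d p q r hp hq hr hK i j hij := by
    have h3 : p = 3 := hK.1
    refine ⟨?_, fun m E h => ?_⟩
    · fin_cases i <;> fin_cases j <;> first
        | exact absurd rfl hij
        | exact Nat.zero_le _
        | exact h3.ge
    · fin_cases i <;> fin_cases j <;> first
        | exact absurd rfl hij
        | exact VD.noConfusion h
        | exact VD.noConfusion h fun e _ => h3.trans e

theorem A33_ok (SR : Side) : A33.OK (KS (.ex 3) (.ex 3) SR) where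
  ok := by decide +kernel
  stt := by decide +kernel
  vx d i j := by fin_cases i <;> fin_cases j <;> rfl
  vd d i j hij := by
    fin_cases i <;> fin_cases j <;> first | exact absurd rfl hij | exact ⟨rfl, rfl, rfl⟩ | exact trivial
  sf d := rfl
  sk d s hs := by
    simp only [A33, List.mem_cons, List.not_mem_nil, or_false] at hs
    rcases hs with rfl | rfl | rfl | rfl | rfl | rfl | rfl | rfl | rfl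
    · exact ⟨by decide, by decide, by decide, rfl, rfl⟩
    · exact ⟨by decide, by decide, by decide, rfl, rfl⟩
    · exact ⟨by decide, by decide, by decide, rfl, le_refl _, le_refl _, rfl, rfl⟩
    · exact ⟨by decide, by decide, by decide, rfl, le_refl _, le_refl _, rfl, rfl⟩
    · exact ⟨by decide, by decide, by decide, rfl, rfl⟩
    · exact ⟨by decide, by decide, by decide, rfl, rfl⟩
    · exact ⟨by decide, by decide, by decide, rfl, rfl⟩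
    · exact ⟨by decide, by decide, by decide, rfl, rfl⟩
    · exact ⟨by decide, by decide, by decide, rfl, rfl, rfl⟩
  cl d p q r hp hq hr hK i j hij := by
    have h3 : p = 3 := hK.1
    have h4 : q = 3 := hK.2.1
    refine ⟨?_, fun m E h => ?_⟩
    · fin_cases i <;> fin_cases j <;> first
        | exact absurd rfl hij
        | exact Nat.zero_le _
        | exact h3.ge
    · fin_cases i <;> fin_cases j <;> first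
        | exact absurd rfl hij
        | exact VD.noConfusion h
        | exact VD.noConfusion h fun e _ => h3.trans e
        | exact VD.noConfusion h fun e _ => h4.trans e

/-- Constant multipliers. -/
def mPr (a b : Int) : Sc × Sc := (.cst a 0, .cst b 0)

/-- The centre. -/
def oC : Sc × Sc × Sc := (.par 9, .par 10, .par 11)

end Pool.Agent.Work.MP_88b7aa_gt.D3
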